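import Pool.Agent.Run7.h77.RO.Defs

/-!
# Project RO (helper77), piece DL (helper579)
-/

set_option autoImplicit false

namespace Run7.h579.RO

open Run7.h77.RO

open Classical in
theorem count_top (n r : ℕ) (h : r + 1 ≤ n) :
    ((Finset.range n).filter (fun y => n ≤ y + r + 1)).card = r + 1 := by
  have e : (Finset.range n).filter (fun y => n ≤ y + r + 1) = Finset.Ico (n - (r + 1)) n := by
    ext y
    simp only [Finset.mem_filter, Finset.mem_range, Finset.mem_Ico]
    omega
  rw [e, Nat.card_Ico]
  omega

theorem t_DL : S_DL := by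
  classical
  intro p B w v m D H hP
  constructor
  · intro r hr
    have hw := hP.hw
    have h1 : cnt B w v H (.l1 : Kd p) r .u1 = r + 1 := by
      have h2 : cnt B w v H (.l1 : Kd p) r .u1 =
          ((Finset.range (w * v)).filter (fun y => w * v ≤ y + r + 1)).card := by
        unfold cnt
        congr 1
        ext y
        simp [A2, E, sz]
      rw [h2]
      apply count_top
      omega
    have z0 : ∀ i, cnt B w v H (.l1 : Kd p) r (.r i) = 0 := by
      intro i; simp [cnt, A2, E]
    have z1 : ∀ i, cnt B w v H (.l1 : Kd p) r (.a i) = 0 := by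
      intro i; simp [cnt, A2, E]
    have z2 : ∀ i, cnt B w v H (.l1 : Kd p) r (.b i) = 0 := by
      intro i; simp [cnt, A2, E]
    have z3 : cnt B w v H (.l1 : Kd p) r .u0 = 0 := by simp [cnt, A2, E]
    have z4 : cnt B w v H (.l1 : Kd p) r .u2 = 0 := by simp [cnt, A2, E]
    have z5 : cnt B w v H (.l1 : Kd p) r .l1 = 0 := by simp [cnt, A2, E]
    have z6 : cnt B w v H (.l1 : Kd p) r .l2 = 0 := by simp [cnt, A2, E]
    unfold dg
    simp only [z0, z1, z2, z3, z4, z5, z6, h1, Finset.sum_const_zero]
    omega
  · intro r hr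
    have hw := hP.hw
    have h1 : cnt B w v H (.l2 : Kd p) r .u2 = r + 1 := by
      have h2 : cnt B w v H (.l2 : Kd p) r .u2 =
          ((Finset.range (2 * w * v)).filter (fun y => 2 * w * v ≤ y + r + 1)).card := by
        unfold cnt
        congr 1
        ext y
        simp [A2, E, sz]
      rw [h2]
      apply count_top
      omega
    have z0 : ∀ i, cnt B w v H (.l2 : Kd p) r (.r i) = 0 := by
      intro i; simp [cnt, A2, E]
    have z1 : ∀ i, cnt B w v H (.l2 : Kd p) r (.a i) = 0 := by
      intro i; simp [cnt, A2, E]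
    have z2 : ∀ i, cnt B w v H (.l2 : Kd p) r (.b i) = 0 := by
      intro i; simp [cnt, A2, E]
    have z3 : cnt B w v H (.l2 : Kd p) r .u0 = 0 := by simp [cnt, A2, E]
    have z4 : cnt B w v H (.l2 : Kd p) r .u1 = 0 := by simp [cnt, A2, E]
    have z5 : cnt B w v H (.l2 : Kd p) r .l1 = 0 := by simp [cnt, A2, E]
    have z6 : cnt B w v H (.l2 : Kd p) r .l2 = 0 := by simp [cnt, A2, E]
    unfold dg
    simp only [z0, z1, z2, z3, z4, z5, z6, h1, Finset.sum_const_zero]
    omega

end Run7.h579.RO
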